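import Pool.Agent.Y132.SI.Up

/-!
# Harmonic chains of the Davis complex of a right-angled Coxeter group with infinitely many generators

`G` is a graph on an arbitrary vertex set `V`, finite or infinite, and `A` is a finite set of vertices.
The cubes of the Davis complex of `W G` are the cosets `w W_T`, `T` a finite clique. Those with `T ⊆ A`
form a `W G`-invariant cocompact subcomplex, and the Davis complex is the directed union of these
subcomplexes over all finite sets `A`.
-/

set_option autoImplicit false

namespace Pool.Agent.Q68.DO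

open Pool.Agent.W907.SG

/-- An `ℓ²` harmonic `i`-chain of the cocompact subcomplex of the Davis complex of `W G` which consists of the
cubes `w W_T` with `T ⊆ A`. The number `c w T` is the coefficient of the cube `w W_T` with the orientation given by
the corner `w` and the order of `T`; crossing to the corner `w t` (`t ∈ T`) reverses the orientation. -/
structure IsHarmOn {V : Type} [LinearOrder V] (G : SimpleGraph V) (A : Finset V) (i : ℕ)
    (c : W G → Finset V → ℝ) : Prop where
  supp : ∀ w (T : Finset V), ¬ (G.IsClique (T : Set V) ∧ T ⊆ A ∧ T.card = i) → c w T = 0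
  anti : ∀ w (T : Finset V) t, t ∈ T → c (w * (cox G).simple t) T = - c w T
  summable : Summable fun x : W G × Finset V => (c x.1 x.2) ^ 2
  cycle : ∀ w (T : Finset V), ∑ v ∈ A \ T, (sg v T : ℝ) * c w (insert v T) = 0
  cocycle : ∀ w (T : Finset V), G.IsClique (T : Set V) → T ⊆ A →
    ∑ t ∈ T, (sg t (T.erase t) : ℝ) * (c w (T.erase t) - c (w * (cox G).simple t) (T.erase t)) = 0

/-- The space of the real harmonic `i`-chains of the subcomplex of the cubes `w W_T`, `T ⊆ A`, which are invariant
under the subgroup `H`. If `H` has finite index then the quotient of the subcomplex by `H` is compact and, by the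
Hodge theorem, the dimension of this space is the `i`-th real Betti number of the (orbifold) quotient. -/
def HInvOn {V : Type} [LinearOrder V] (G : SimpleGraph V) (A : Finset V) (H : Subgroup (W G)) (i : ℕ) :
    Submodule ℝ (W G → Finset V → ℝ) where
  carrier := {c | (∀ h ∈ H, ∀ w T, c (h * w) T = c w T) ∧
    (∀ w (T : Finset V), ¬ (G.IsClique (T : Set V) ∧ T ⊆ A ∧ T.card = i) → c w T = 0) ∧
    (∀ w (T : Finset V) t, t ∈ T → c (w * (cox G).simple t) T = - c w T) ∧
    (∀ w (T : Finset V), ∑ v ∈ A \ T, (sg v T : ℝ) * c w (insert v T) = 0) ∧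
    (∀ w (T : Finset V), G.IsClique (T : Set V) → T ⊆ A →
      ∑ t ∈ T, (sg t (T.erase t) : ℝ) * (c w (T.erase t) - c (w * (cox G).simple t) (T.erase t)) = 0)}
  add_mem' := by
    rintro c d ⟨h1, h2, h3, h4, h5⟩ ⟨g1, g2, g3, g4, g5⟩
    refine ⟨fun h hh w T => ?_, fun w T hT => ?_, fun w T t ht => ?_, fun w T => ?_, fun w T hT hA => ?_⟩
    · simp only [Pi.add_apply, h1 h hh, g1 h hh]
    · simp only [Pi.add_apply, h2 w T hT, g2 w T hT, add_zero]
    · simp only [Pi.add_apply, h3 w T t ht, g3 w T t ht]; ring
    · have := congrArg₂ (· + ·) (h4 w T) (g4 w T)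
      simp only [add_zero] at this
      rw [← Finset.sum_add_distrib] at this
      rw [← this]
      exact Finset.sum_congr rfl fun v _ => by simp only [Pi.add_apply]; ring
    · have := congrArg₂ (· + ·) (h5 w T hT hA) (g5 w T hT hA)
      simp only [add_zero] at this
      rw [← Finset.sum_add_distrib] at this
      rw [← this]
      exact Finset.sum_congr rfl fun v _ => by simp only [Pi.add_apply]; ring
  zero_mem' := by
    refine ⟨fun h hh w T => rfl, fun w T hT => rfl, fun w T t ht => ?_, fun w T => ?_, fun w T hT hA => ?_⟩
    · simp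
    · simp
    · simp
  smul_mem' := by
    rintro r c ⟨h1, h2, h3, h4, h5⟩
    refine ⟨fun h hh w T => ?_, fun w T hT => ?_, fun w T t ht => ?_, fun w T => ?_, fun w T hT hA => ?_⟩
    · simp only [Pi.smul_apply, h1 h hh]
    · simp only [Pi.smul_apply, h2 w T hT, smul_zero]
    · simp only [Pi.smul_apply, h3 w T t ht, smul_neg]
    · have := congrArg (fun x => r * x) (h4 w T)
      simp only [mul_zero, Finset.mul_sum] at this
      rw [← this]
      exact Finset.sum_congr rfl fun v _ => by simp only [Pi.smul_apply, smul_eq_mul]; ring
    · have := congrArg (fun x => r * x) (h5 w T hT hA)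
      simp only [mul_zero, Finset.mul_sum] at this
      rw [← this]
      exact Finset.sum_congr rfl fun v _ => by simp only [Pi.smul_apply, smul_eq_mul]; ring

end Pool.Agent.Q68.DO
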