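import Pool.Agent.Q68.DO.Cls
import Pool.Agent.Q68.DO.Defs

/-!
# From the special subgroups of finite rank to the whole group
-/

set_option autoImplicit false
set_option linter.unusedSectionVars false

namespace Pool.Agent.Q68.DO

open Module Pool.Agent.W907.SG Pool.Agent.W907.SM Pool.Agent.W461.SGN Pool.Agent.W397.SG
  Pool.Agent.TH652.Above Pool.Agent.Y132.SI

section emb

variable {V : Type} (G : SimpleGraph V) (A : Set V)

/-- the inclusion of the special subgroup -/
noncomputable def emb : W (G.induce A) →* W G :=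
  (cox (G.induce A)).toCoxeterSystem.lift ⟨fun a => (cox G).simple a.1,
    liftable (G.induce A) _ (fun a => simple_mul_self G a.1) (fun a b h => simple_comm G a.1 b.1 h)⟩

theorem emb_simple (a : ↥A) : emb G A ((cox (G.induce A)).simple a) = (cox G).simple a.1 :=
  CoxeterSystem.lift_apply_simple _ _ _

open Classical in
theorem emb_inj : Function.Injective (emb G A) := by
  let f : V → W (G.induce A) := fun v => if h : v ∈ A then (cox (G.induce A)).simple ⟨v, h⟩ else 1
  have hf : (cox G).IsLiftable f := by
    refine liftable G f ?_ ?_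
    · intro v
      by_cases h : v ∈ A
      · simp only [f, dif_pos h]
        exact simple_mul_self _ _
      · simp only [f, dif_neg h, mul_one]
    · intro u v huv
      by_cases hu : u ∈ A
      · by_cases hv : v ∈ A
        · simp only [f, dif_pos hu, dif_pos hv]
          exact simple_comm (G.induce A) _ _ huv
        · simp only [f, dif_neg hv, mul_one, one_mul]
      · simp only [f, dif_neg hu, mul_one, one_mul]
  let π : W G →* W (G.induce A) := (cox G).toCoxeterSystem.lift ⟨f, hf⟩
  have hπ : π.comp (emb G A) = MonoidHom.id _ := by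
    refine (cox (G.induce A)).toCoxeterSystem.ext_simple fun u => ?_
    show π (emb G A ((cox (G.induce A)).simple u)) = (cox (G.induce A)).simple u
    rw [emb_simple]
    refine (CoxeterSystem.lift_apply_simple _ _ _).trans ?_
    show f u.1 = _
    simp only [f, dif_pos u.2]
  intro a b hab
  have := congrArg π hab
  have e := fun a => congrArg (fun f => f a) hπ
  simp only [MonoidHom.comp_apply, MonoidHom.id_apply] at e
  rwa [e, e] at this

end emb

section up

variable {V : Type} [LinearOrder V] {A : Finset V}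

/-- the finite set of vertices of `G` -/
def up (T : Finset ↥(A : Set V)) : Finset V := T.map ⟨Subtype.val, Subtype.val_injective⟩

theorem mem_up {T : Finset ↥(A : Set V)} {v : V} : v ∈ up T ↔ ∃ h : v ∈ (A : Set V), (⟨v, h⟩ : ↥(A : Set V)) ∈ T := by
  unfold up
  rw [Finset.mem_map]
  constructor
  · rintro ⟨a, ha, rfl⟩
    exact ⟨a.2, ha⟩
  · rintro ⟨h, hT⟩
    exact ⟨_, hT, rfl⟩

theorem up_inj : Function.Injective (up : Finset ↥(A : Set V) → Finset V) := Finset.map_injective _

theorem mem_up_val {T : Finset ↥(A : Set V)} {a : ↥(A : Set V)} : a.1 ∈ up T ↔ a ∈ T := by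
  rw [mem_up]
  exact ⟨fun ⟨_, h⟩ => h, fun h => ⟨a.2, h⟩⟩

theorem up_sub (T : Finset ↥(A : Set V)) : up T ⊆ A := by
  intro v hv
  obtain ⟨h, _⟩ := mem_up.1 hv
  exact h

theorem up_card (T : Finset ↥(A : Set V)) : (up T).card = T.card := Finset.card_map _

theorem up_clique (G : SimpleGraph V) (T : Finset ↥(A : Set V)) :
    G.IsClique ((up T : Finset V) : Set V) ↔ (G.induce (A : Set V)).IsClique (T : Set ↥(A : Set V)) := by
  constructor
  · intro h a ha b hb hab
    exact h (mem_up_val.2 ha) (mem_up_val.2 hb) (fun e => hab (Subtype.ext e))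
  · intro h a ha b hb hab
    obtain ⟨ha1, ha2⟩ := mem_up.1 (Finset.mem_coe.1 ha)
    obtain ⟨hb1, hb2⟩ := mem_up.1 (Finset.mem_coe.1 hb)
    exact h ha2 hb2 (fun e => hab (congrArg Subtype.val e))

/-- the corresponding subset of `A` -/
def dn (A : Finset V) (T : Finset V) : Finset ↥(A : Set V) := T.subtype (· ∈ (A : Set V))

theorem mem_dn {T : Finset V} {a : ↥(A : Set V)} : a ∈ dn A T ↔ a.1 ∈ T := Finset.mem_subtype

theorem up_dn {T : Finset V} (hT : T ⊆ A) : up (dn A T) = T := by
  ext v
  rw [mem_up]
  constructor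
  · rintro ⟨h, h1⟩
    exact mem_dn.1 h1
  · intro hv
    exact ⟨hT hv, mem_dn.2 hv⟩

theorem dn_up (T : Finset ↥(A : Set V)) : dn A (up T) = T := by
  ext a
  rw [mem_dn, mem_up_val]

theorem up_insert {inst : DecidableEq ↥(A : Set V)} (v : ↥(A : Set V)) (T : Finset ↥(A : Set V)) :
    up (@insert _ _ (@Finset.instInsert _ inst) v T) = insert v.1 (up T) := by
  unfold up
  rw [Finset.map_insert]
  rfl

theorem up_erase {inst : DecidableEq ↥(A : Set V)} (v : ↥(A : Set V)) (T : Finset ↥(A : Set V)) :
    up (@Finset.erase _ inst T v) = (up T).erase v.1 := by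
  unfold up
  rw [Finset.map_erase]
  rfl

theorem sg_up (v : ↥(A : Set V)) (T : Finset ↥(A : Set V)) : sg v.1 (up T) = sg v T := by
  unfold sg up
  rw [Finset.filter_map, Finset.card_map]
  rfl

theorem sum_compl [Fintype ↥(A : Set V)] (T : Finset ↥(A : Set V)) (F : V → ℝ) :
    ∑ v ∈ Tᶜ, F v.1 = ∑ v ∈ A \ up T, F v := by
  have h1 : A \ up T = (Tᶜ).map ⟨Subtype.val, Subtype.val_injective⟩ := by
    ext v
    rw [Finset.mem_sdiff, Finset.mem_map]
    constructor
    · rintro ⟨h2, h3⟩
      refine ⟨⟨v, h2⟩, ?_, rfl⟩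
      rw [Finset.mem_compl]
      exact fun h4 => h3 (mem_up.2 ⟨h2, h4⟩)
    · rintro ⟨a, ha, rfl⟩
      rw [Finset.mem_compl] at ha
      exact ⟨a.2, fun h => ha (mem_up_val.1 h)⟩
  rw [h1, Finset.sum_map]
  rfl

theorem sum_up (T : Finset ↥(A : Set V)) (F : V → ℝ) : ∑ v ∈ up T, F v = ∑ v ∈ T, F v.1 := by
  unfold up
  rw [Finset.sum_map]
  rfl

end up

/-- vanishing for the cocompact subcomplex of the cubes of type `⊆ A` -/
theorem harm_zero {V : Type} [LinearOrder V] (G : SimpleGraph V) (A : Finset V) [Fintype ↥(A : Set V)] (i : ℕ)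
    (hL : L2Van (G.induce (A : Set V)) i) (c : W G → Finset V → ℝ) (hc : IsHarmOn G A i c) : c = 0 := by
  classical
  have key : ∀ g : W G, (fun (w : W (G.induce (A : Set V))) (T : Finset ↥(A : Set V)) =>
      c (g * emb G (A : Set V) w) (up T)) = 0 := by
    intro g
    refine hL _ ⟨?_, ?_, ?_, ?_, ?_⟩
    · intro w T hT
      refine hc.supp _ _ ?_
      rintro ⟨h1, _, h3⟩
      exact hT ⟨(up_clique G T).1 h1, by rw [← up_card]; exact h3⟩
    · intro w T t ht
      show c (g * emb G (A : Set V) (w * _)) (up T) = _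
      rw [map_mul, emb_simple, ← mul_assoc]
      exact hc.anti _ _ _ (mem_up_val.2 ht)
    · refine hc.summable.comp_injective
        (i := fun x : W (G.induce (A : Set V)) × Finset ↥(A : Set V) => (g * emb G (A : Set V) x.1, up x.2)) ?_
      rintro ⟨w, T⟩ ⟨w', T'⟩ h
      obtain ⟨h1, h2⟩ := Prod.mk.inj h
      rw [Prod.mk.injEq]
      exact ⟨emb_inj G (A : Set V) (mul_left_cancel h1), up_inj h2⟩
    · intro w T
      have h1 := hc.cycle (g * emb G (A : Set V) w) (up T)
      rw [← sum_compl T (fun v => (sg v (up T) : ℝ) * c (g * emb G (A : Set V) w) (insert v (up T)))] at h1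
      rw [← h1]
      refine Finset.sum_congr rfl fun v _ => ?_
      rw [sg_up, up_insert]
    · intro w T hT
      have h1 := hc.cocycle (g * emb G (A : Set V) w) (up T) ((up_clique G T).2 hT) (up_sub T)
      rw [sum_up T (fun t => (sg t ((up T).erase t) : ℝ) * (c (g * emb G (A : Set V) w) ((up T).erase t) -
        c (g * emb G (A : Set V) w * (cox G).simple t) ((up T).erase t)))] at h1
      rw [← h1]
      refine Finset.sum_congr rfl fun v _ => ?_
      rw [← sg_up, up_erase, map_mul, emb_simple, mul_assoc]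
  funext w T
  by_cases hT : T ⊆ A
  · have h1 := congrFun (congrFun (key w) 1) (dn A T)
    simp only [map_one, mul_one, up_dn hT] at h1
    exact h1
  · exact hc.supp w T fun h => hT h.2.1

section growth

variable {V : Type} [LinearOrder V] (G : SimpleGraph V) (A : Finset V) (H : Subgroup (W G))

/-- extension by zero and pull-back -/
noncomputable def PB2 : (Quotient (QuotientGroup.rightRel H) → Finset ↥(A : Set V) → ℝ) →ₗ[ℝ]
    (W G → Finset V → ℝ) where
  toFun c w T := if T ⊆ A then c (Quotient.mk'' w) (dn A T) else 0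
  map_add' c d := by
    funext w T
    by_cases h : T ⊆ A
    · simp only [if_pos h, Pi.add_apply]
    · simp only [if_neg h, Pi.add_apply, add_zero]
  map_smul' r c := by
    funext w T
    by_cases h : T ⊆ A
    · simp only [if_pos h, Pi.smul_apply, RingHom.id_apply]
    · simp only [if_neg h, Pi.smul_apply, smul_zero]

theorem PB2_up (c : Quotient (QuotientGroup.rightRel H) → Finset ↥(A : Set V) → ℝ) (w : W G)
    (T : Finset ↥(A : Set V)) : PB2 G A H c w (up T) = c (Quotient.mk'' w) T := by
  show (if up T ⊆ A then c (Quotient.mk'' w) (dn A (up T)) else 0) = _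
  rw [if_pos (up_sub T), dn_up]

theorem PB2_not (c : Quotient (QuotientGroup.rightRel H) → Finset ↥(A : Set V) → ℝ) (w : W G)
    {T : Finset V} (h : ¬ T ⊆ A) : PB2 G A H c w T = 0 := if_neg h

/-- the Hodge theorem for the quotient of the subcomplex -/
theorem finrank_HInvOn [Fintype ↥(A : Set V)] [Fintype (Quotient (QuotientGroup.rightRel H))] (i : ℕ) :
    finrank ℝ (HInvOn G A H i) =
      beta (G.induce (A : Set V)) (pull ℝ (fun (v : ↥(A : Set V)) x => aa G H v.1 x)) Set.univ ∅ i := by
  rw [← hodr ↥(A : Set V) _ (G.induce (A : Set V)) (fun (v : ↥(A : Set V)) x => aa G H v.1 x)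
    (fun v x => aa_inv G H v.1 x) (fun u v h x => aa_comm G H u.1 v.1 h x) i
    ((HInvOn G A H i).comap (PB2 G A H)) ?_]
  · have hinj : Function.Injective (PB2 G A H) := by
      intro c d h
      funext x T
      induction x using Quotient.inductionOn' with
      | h w =>
        have := congrFun (congrFun h w) (up T)
        rwa [PB2_up, PB2_up] at this
    have hmap : ((HInvOn G A H i).comap (PB2 G A H)).map (PB2 G A H) = HInvOn G A H i := by
      rw [Submodule.map_comap_eq]
      refine inf_eq_right.2 ?_
      intro c hc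
      refine ⟨fun x T => Quotient.liftOn' x (fun w => c w (up T)) (fun a b hab => ?_), ?_⟩
      · rw [QuotientGroup.rightRel_apply] at hab
        have h1 := hc.1 _ hab a (up T)
        rw [inv_mul_cancel_right] at h1
        exact h1.symm
      · funext w T
        by_cases h : T ⊆ A
        · show (if T ⊆ A then c w (up (dn A T)) else 0) = c w T
          rw [if_pos h, up_dn h]
        · rw [PB2_not G A H _ _ h]
          exact (hc.2.1 w T fun h1 => h h1.2.1).symm
    have e := (Submodule.equivMapOfInjective (PB2 G A H) hinj ((HInvOn G A H i).comap (PB2 G A H))).finrank_eq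
    rw [hmap] at e
    exact e.symm
  · intro c
    rw [Submodule.mem_comap]
    constructor
    · rintro ⟨_, h2, h3, h4, h5⟩
      refine ⟨fun x T hT => ?_, fun x T t ht => ?_, fun x T => ?_, fun x T hT => ?_⟩
      · induction x using Quotient.inductionOn' with
        | h w =>
          rw [← PB2_up G A H c w T]
          refine h2 w (up T) ?_
          rintro ⟨k1, _, k3⟩
          exact hT ⟨(up_clique G T).1 k1, by rw [← up_card]; exact k3⟩
      · induction x using Quotient.inductionOn' with
        | h w =>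
          have := h3 w (up T) t.1 (mem_up_val.2 ht)
          rw [PB2_up, PB2_up] at this
          exact this
      · induction x using Quotient.inductionOn' with
        | h w =>
          have h6 := h4 w (up T)
          rw [← sum_compl T (fun v => (sg v (up T) : ℝ) * PB2 G A H c w (insert v (up T)))] at h6
          rw [← h6]
          refine Finset.sum_congr rfl fun v _ => ?_
          rw [sg_up]
          exact congrArg (fun r : ℝ => (sg v T : ℝ) * r)
            ((PB2_up G A H c w _).symm.trans (congrArg (PB2 G A H c w) (up_insert v T)))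
      · induction x using Quotient.inductionOn' with
        | h w =>
          have h6 := h5 w (up T) ((up_clique G T).2 hT) (up_sub T)
          rw [sum_up T (fun t => (sg t ((up T).erase t) : ℝ) * (PB2 G A H c w ((up T).erase t) -
            PB2 G A H c (w * (cox G).simple t) ((up T).erase t)))] at h6
          rw [← h6]
          refine Finset.sum_congr rfl fun v _ => ?_
          refine congrArg₂ (fun a b : ℝ => a * b) ?_ (congrArg₂ (fun a b : ℝ => a - b) ?_ ?_)
          · rw [← sg_up, up_erase]
          · exact (PB2_up G A H c w _).symm.trans (congrArg (PB2 G A H c w) (up_erase v T))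
          · exact (PB2_up G A H c (w * (cox G).simple v.1) _).symm.trans
              (congrArg (PB2 G A H c (w * (cox G).simple v.1)) (up_erase v T))
    · rintro ⟨h2, h3, h4, h5⟩
      refine ⟨fun h hh w T => ?_, fun w T hT => ?_, fun w T t ht => ?_, fun w T => ?_, fun w T hT hTA => ?_⟩
      · by_cases hT : T ⊆ A
        · rw [← up_dn hT, PB2_up, PB2_up]
          have : (Quotient.mk'' (h * w) : Quotient (QuotientGroup.rightRel H)) = Quotient.mk'' w := by
            refine Quotient.sound' ?_
            rw [QuotientGroup.rightRel_apply, mul_inv_rev, mul_inv_cancel_left]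
            exact H.inv_mem hh
          rw [this]
        · rw [PB2_not G A H _ _ hT, PB2_not G A H _ _ hT]
      · by_cases hTA : T ⊆ A
        · rw [← up_dn hTA, PB2_up]
          refine h2 _ _ ?_
          rintro ⟨k1, k2⟩
          refine hT ⟨?_, hTA, ?_⟩
          · rw [← up_dn hTA]
            exact (up_clique G _).2 k1
          · rw [← up_dn hTA, up_card]
            exact k2
        · exact PB2_not G A H _ _ hTA
      · by_cases hTA : T ⊆ A
        · have k := h3 (Quotient.mk'' w) (dn A T) ⟨t, hTA ht⟩ (mem_dn.2 ht)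
          rw [← up_dn hTA, PB2_up, PB2_up]
          exact k
        · rw [PB2_not G A H _ _ hTA, PB2_not G A H _ _ hTA, neg_zero]
      · by_cases hTA : T ⊆ A
        · have k := h4 (Quotient.mk'' w) (dn A T)
          have k2 := sum_compl (dn A T) (fun v => (sg v T : ℝ) * PB2 G A H c w (insert v T))
          rw [up_dn hTA] at k2
          rw [← k2, ← k]
          refine Finset.sum_congr rfl fun v _ => ?_
          rw [← sg_up, up_dn hTA]
          congr 1
          refine Eq.trans (congrArg (PB2 G A H c w) ?_) (PB2_up G A H c w _)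
          refine Eq.trans ?_ (up_insert v (dn A T)).symm
          rw [up_dn hTA]
        · refine Finset.sum_eq_zero fun v hv => ?_
          rw [PB2_not G A H _ _ fun hh => hTA (fun x hx => hh (Finset.mem_insert_of_mem hx)), mul_zero]
      · have k := h5 (Quotient.mk'' w) (dn A T) ((up_clique G _).1 (by rw [up_dn hTA]; exact hT))
        have k2 := sum_up (dn A T) (fun t => (sg t (T.erase t) : ℝ) * (PB2 G A H c w (T.erase t) -
            PB2 G A H c (w * (cox G).simple t) (T.erase t)))
        rw [up_dn hTA] at k2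
        rw [k2, ← k]
        refine Finset.sum_congr rfl fun v _ => ?_
        have k3 : ∀ {inst : DecidableEq ↥(A : Set V)}, up (@Finset.erase _ inst (dn A T) v) = T.erase v.1 := by
          intro inst
          rw [up_erase, up_dn hTA]
        refine congrArg₂ (fun a b : ℝ => a * b) ?_ (congrArg₂ (fun a b : ℝ => a - b) ?_ ?_)
        · exact (congrArg (fun S : Finset V => ((sg v.1 S : ℤ) : ℝ)) k3.symm).trans
            (congrArg (fun z : ℤ => (z : ℝ)) (sg_up v _))
        · exact (congrArg (PB2 G A H c w) k3.symm).trans (PB2_up G A H c w _)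
        · exact (congrArg (PB2 G A H c (w * (cox G).simple v.1)) k3.symm).trans
            (PB2_up G A H c (w * (cox G).simple v.1) _)

end growth

/-- growth in one degree -/
theorem growthOn_one {V : Type} [LinearOrder V] (G : SimpleGraph V) (A : Finset V) [Fintype ↥(A : Set V)] (i : ℕ)
    (hL : L2Van (G.induce (A : Set V)) i) (N : ℕ) :
    ∃ E : Finset (W G), (1 : W G) ∉ E ∧ ∀ H : Subgroup (W G), H.FiniteIndex →
      (∀ g ∈ E, ∀ x : W G, x * g * x⁻¹ ∉ H) → N * finrank ℝ (HInvOn G A H i) ≤ H.index := by
  classical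
  obtain ⟨Ei, h2, h3⟩ := small ↥(A : Set V) (G.induce (A : Set V)) i hL N
  refine ⟨Ei.image (emb G (A : Set V)), ?_, fun H hfin hE => ?_⟩
  · rw [Finset.mem_image]
    rintro ⟨x, hx, hx1⟩
    rw [← map_one (emb G (A : Set V))] at hx1
    exact h2 (emb_inj G (A : Set V) hx1 ▸ hx)
  haveI : Finite (Quotient (QuotientGroup.rightRel H)) :=
    Finite.of_equiv _ (QuotientGroup.quotientRightRelEquivQuotientLeftRel H).symm
  letI : Fintype (Quotient (QuotientGroup.rightRel H)) := Fintype.ofFinite _
  have hcard : Fintype.card (Quotient (QuotientGroup.rightRel H)) = H.index := by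
    rw [← Nat.card_eq_fintype_card, Nat.card_congr (QuotientGroup.quotientRightRelEquivQuotientLeftRel H)]
    rfl
  have h4 := h3 _ (fun (v : ↥(A : Set V)) x => aa G H v.1 x) (fun x g => ev G H x (emb G (A : Set V) g))
    (fun v x => aa_inv G H v.1 x) (fun u v h x => aa_comm G H u.1 v.1 h x)
    (fun x => by show ev G H x (emb G (A : Set V) 1) = x; rw [map_one]; exact ev_one G H x)
    (fun x g h => by
      show ev G H x (emb G (A : Set V) (g * h)) = _
      rw [map_mul]
      exact ev_mul G H x _ _)
    (fun x v => by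
      show ev G H x (emb G (A : Set V) _) = _
      rw [emb_simple]
      rfl)
    (fun g hg x => ev_free G H (fun y => hE _ (Finset.mem_image_of_mem _ hg) y) x)
  rw [hcard] at h4
  rw [finrank_HInvOn]
  exact h4

/-- growth above the middle -/
theorem growthOn_above {V : Type} [LinearOrder V] {G : SimpleGraph V} {n : ℕ} (hG : AQI n G) (A : Finset V)
    (ε : ℝ) (hε : 0 < ε) :
    ∃ E : Finset (W G), (1 : W G) ∉ E ∧ ∀ H : Subgroup (W G), H.FiniteIndex →
      (∀ g ∈ E, ∀ x : W G, x * g * x⁻¹ ∉ H) → ∀ i : ℕ, n < 2 * i →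
        (finrank ℝ (HInvOn G A H i) : ℝ) ≤ ε * H.index := by
  classical
  letI : Fintype ↥(A : Set V) := Fintype.ofFinite _
  obtain ⟨K, hK⟩ : ∃ K : ℕ, K = Fintype.card ↥(A : Set V) + 1 := ⟨_, rfl⟩
  obtain ⟨N, hN⟩ := exists_nat_gt (1 / ε)
  have hN0 : (0 : ℝ) < N := lt_of_le_of_lt (by positivity) hN
  have hNε : 1 < N * ε := (div_lt_iff₀ hε).1 hN
  have h1 : ∀ i : ℕ, ∃ Ei : Finset (W G), (1 : W G) ∉ Ei ∧ (n < 2 * i →
      ∀ H : Subgroup (W G), H.FiniteIndex → (∀ g ∈ Ei, ∀ x : W G, x * g * x⁻¹ ∉ H) →
        N * finrank ℝ (HInvOn G A H i) ≤ H.index) := by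
    intro i
    by_cases hi : n < 2 * i
    · obtain ⟨Ei, h2, h3⟩ := growthOn_one G A i (above_AQI hG (A : Set V) A.finite_toSet i hi) N
      exact ⟨Ei, h2, fun _ => h3⟩
    · exact ⟨∅, Finset.notMem_empty _, fun h => absurd h hi⟩
  choose Ef hEf1 hEf2 using h1
  refine ⟨(Finset.range K).biUnion Ef, ?_, ?_⟩
  · rw [Finset.mem_biUnion]
    rintro ⟨i, _, h⟩
    exact hEf1 i h
  intro H hfin hE i hi
  have hidx : (0 : ℝ) ≤ H.index := Nat.cast_nonneg _
  by_cases hiK : i < K
  · have h2 := hEf2 i hi H hfin fun g hg x =>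
      hE g (Finset.mem_biUnion.2 ⟨i, Finset.mem_range.2 hiK, hg⟩) x
    have h3 : (N : ℝ) * (finrank ℝ (HInvOn G A H i) : ℝ) ≤ H.index := by exact_mod_cast h2
    have h4 : (finrank ℝ (HInvOn G A H i) : ℝ) ≤ N * ε * (finrank ℝ (HInvOn G A H i) : ℝ) := by
      have h5 : (0 : ℝ) ≤ (finrank ℝ (HInvOn G A H i) : ℝ) := Nat.cast_nonneg _
      nlinarith
    nlinarith
  · haveI : Finite (Quotient (QuotientGroup.rightRel H)) :=
      Finite.of_equiv _ (QuotientGroup.quotientRightRelEquivQuotientLeftRel H).symm
    letI : Fintype (Quotient (QuotientGroup.rightRel H)) := Fintype.ofFinite _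
    rw [finrank_HInvOn, beta_big (G.induce (A : Set V)) _ Set.univ ∅ (by omega), Nat.cast_zero]
    positivity

end Pool.Agent.Q68.DO
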