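import Pool.Agent.TH652.Dual7
import Pool.Agent.TH652.ClassDefI

/-!
# The class `AQI n` of graphs on arbitrary (finite or infinite) vertex sets

Vanishing of the `ℓ²`-homology above the middle for all the finite full subcomplexes.
-/

set_option autoImplicit false
set_option linter.unusedSectionVars false

namespace Pool.Agent.Q68.DO

open Pool.Agent.W907.SG Pool.Agent.W907.SM Pool.Agent.TH652.Above
open Pool.Agent.TH652.Join (join)

/-- A class of graphs on arbitrary, finite or infinite, vertex sets. -/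
inductive AQI : ℕ → ∀ {V : Type}, SimpleGraph V → Prop
  /-- the finite graphs in the class `AQ n` -/
  | aq {n : ℕ} {V : Type} (G : SimpleGraph V) : AQ n G → AQI n G
  /-- the graphs in the class `AMI n` -/
  | ami {n : ℕ} {V : Type} (G : SimpleGraph V) : AMI n G → AQI n G
  /-- graphs all of whose finite full subgraphs belong to the class -/
  | locfin {n : ℕ} {V : Type} (G : SimpleGraph V) : (∀ A : Set V, A.Finite → AQI n (G.induce A)) → AQI n G
  /-- full subcomplexes -/
  | full {n : ℕ} {V : Type} (G : SimpleGraph V) (A : Set V) : AQI n G → AQI n (G.induce A)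
  /-- joins -/
  | join {m n : ℕ} {V U : Type} (G : SimpleGraph V) (H : SimpleGraph U) : AQI m G → AQI n H →
      AQI (m + n) (join G H)
  /-- from `n` to `n + 1` -/
  | succ {n : ℕ} {V : Type} (G : SimpleGraph V) : AQI n G → AQI (n + 1) G
  /-- from `2 m + 1` to `2 m` -/
  | pred {m : ℕ} {V : Type} (G : SimpleGraph V) : AQI (2 * m + 1) G → AQI (2 * m) G
  /-- deleting an edge whose link is in the class `n` -/
  | del {n : ℕ} {V : Type} (G : SimpleGraph V) (s t : V) : G.Adj s t → AQI (n + 2) G →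
      AQI n (G.induce (G.neighborSet s ∩ G.neighborSet t)) → AQI (n + 2) (G.deleteEdges {s(s, t)})
  /-- even length: the vertices whose links are not in the class `2 m + 1` span a subcomplex of dimension at
  most `m` -/
  | loc {m : ℕ} {V : Type} (G : SimpleGraph V) (B : Set V) :
      (∀ T : Finset V, G.IsClique (T : Set V) → (T : Set V) ⊆ B → T.card ≤ m + 1) →
      (∀ v, v ∉ B → AQI (2 * m + 1) (G.induce (G.neighborSet v))) → AQI (2 * m + 2) G
  /-- adding a vertex whose link is in the class `n` -/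
  | vert {n : ℕ} {V : Type} (G : SimpleGraph V) (v : V) : AQI (n + 2) (G.induce {v}ᶜ) →
      AQI n (G.induce (G.neighborSet v)) → AQI (n + 2) G
  /-- gluing along a full subcomplex of the class `n` -/
  | glue {n : ℕ} {V : Type} (G : SimpleGraph V) (A B : Set V) : A ∪ B = Set.univ →
      (∀ a ∈ A, a ∉ B → ∀ b ∈ B, b ∉ A → ¬ G.Adj a b) → AQI (n + 2) (G.induce A) → AQI (n + 2) (G.induce B) →
      AQI n (G.induce (A ∩ B)) → AQI (n + 2) G
  /-- isomorphic graphs -/
  | iso {n : ℕ} {V U : Type} (G : SimpleGraph V) (H : SimpleGraph U) : Nonempty (G ≃g H) → AQI n G → AQI n H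

/-- the motive -/
def QI (n : ℕ) {V : Type} (G : SimpleGraph V) : Prop := ∀ A : Set V, A.Finite → Q n (G.induce A)

theorem Q_of_map {n : ℕ} {U V : Type} (G : SimpleGraph V) (H : SimpleGraph U) (f : U → V)
    (hf : Function.Injective f) (hadj : ∀ a b, G.Adj (f a) (f b) ↔ H.Adj a b) (h : Q n G) : Q n H :=
  Q_emb G H ⟨⟨f, hf⟩, fun {a b} => hadj a b⟩ h

theorem QI_emb {n : ℕ} {U V : Type} (G : SimpleGraph V) (H : SimpleGraph U) (f : U → V)
    (hf : Function.Injective f) (hadj : ∀ a b, G.Adj (f a) (f b) ↔ H.Adj a b) (h : QI n G) : QI n H := by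
  intro A hA
  refine Q_of_map (G.induce (f '' A)) (H.induce A) (fun a => ⟨f a.1, a.1, a.2, rfl⟩) ?_ ?_ (h _ (hA.image f))
  · intro a b hab
    exact Subtype.ext (hf (congrArg Subtype.val hab))
  · intro a b
    exact hadj a.1 b.1

theorem Q_full {n : ℕ} {V : Type} (G : SimpleGraph V) (A : Set V) (h : Q n G) : Q n (G.induce A) :=
  Q_emb G _ (SimpleGraph.Embedding.induce A) h

theorem QI_of_Q {n : ℕ} {V : Type} {G : SimpleGraph V} (h : Q n G) : QI n G := fun A _ => Q_full G A h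

theorem Q_of_QI {n : ℕ} {V : Type} [Finite V] {G : SimpleGraph V} (h : QI n G) : Q n G :=
  Q_of_map (G.induce Set.univ) G (fun a => ⟨a, trivial⟩) (fun _ _ h => congrArg Subtype.val h) (fun _ _ => Iff.rfl)
    (h Set.univ Set.finite_univ)

theorem QI_join {m n : ℕ} {V U : Type} (G : SimpleGraph V) (H : SimpleGraph U) (h1 : QI m G) (h2 : QI n H) :
    QI (m + n) (join G H) := by
  intro A hA
  have h3 := Q_join _ _ (h1 {a | Sum.inl a ∈ A} (Set.Finite.preimage Sum.inl_injective.injOn hA))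
    (h2 {a | Sum.inr a ∈ A} (Set.Finite.preimage Sum.inr_injective.injOn hA))
  refine Q_of_map _ _ (fun x : ↥A => match x with
    | ⟨Sum.inl a, ha⟩ => Sum.inl ⟨a, ha⟩
    | ⟨Sum.inr a, ha⟩ => Sum.inr ⟨a, ha⟩) ?_ ?_ h3
  · rintro ⟨a | a, ha⟩ ⟨b | b, hb⟩ hab
    · exact Subtype.ext (congrArg Sum.inl (congrArg Subtype.val (Sum.inl_injective hab)))
    · cases hab
    · cases hab
    · exact Subtype.ext (congrArg Sum.inr (congrArg Subtype.val (Sum.inr_injective hab)))
  · rintro ⟨a | a, ha⟩ ⟨b | b, hb⟩ <;> exact Iff.rfl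

/-- from `QI k (G.induce C)` to the induced subgraph of `G.induce D` on the points in `C` -/
theorem Q_sub2 {V : Type} (G : SimpleGraph V) {D : Set V} (hD : D.Finite) (k : ℕ) (C : Set V)
    (E : Set ↥D) (hE : ∀ x : ↥D, x ∈ E → x.1 ∈ C) (hC : QI k (G.induce C)) : Q k ((G.induce D).induce E) := by
  have h4 := hC {x | x.1 ∈ D} (Set.Finite.preimage Subtype.val_injective.injOn hD)
  refine Q_of_map _ _ (fun x : ↥E => ⟨⟨x.1.1, hE x.1 x.2⟩, x.1.2⟩) ?_ ?_ h4
  · intro a b hab
    have := congrArg (fun y => y.1.1) hab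
    exact Subtype.ext (Subtype.ext this)
  · intro a b
    exact Iff.rfl

theorem QI_glue {n : ℕ} {V : Type} (G : SimpleGraph V) (A B : Set V) (hAB : A ∪ B = Set.univ)
    (hno : ∀ a ∈ A, a ∉ B → ∀ b ∈ B, b ∉ A → ¬ G.Adj a b) (h1 : QI (n + 2) (G.induce A))
    (h2 : QI (n + 2) (G.induce B)) (h3 : QI n (G.induce (A ∩ B))) : QI (n + 2) G := by
  intro D hD
  have : Finite ↥D := hD
  refine Q_glue (G.induce D) {x | x.1 ∈ A} {x | x.1 ∈ B} ?_ ?_ (Q_sub2 G hD _ A _ (fun _ h => h) h1)
    (Q_sub2 G hD _ B _ (fun _ h => h) h2) (Q_sub2 G hD _ (A ∩ B) _ (fun _ h => h) h3)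
  · ext x
    simp only [Set.mem_union, Set.mem_ofPred_eq, Set.mem_univ, iff_true]
    have : x.1 ∈ A ∪ B := by rw [hAB]; trivial
    exact this
  · intro a ha haB b hb hbA
    exact hno a.1 ha haB b.1 hb hbA

theorem QI_vert {n : ℕ} {V : Type} (G : SimpleGraph V) (v : V) (h1 : QI (n + 2) (G.induce {v}ᶜ))
    (h2 : QI n (G.induce (G.neighborSet v))) : QI (n + 2) G := by
  intro D hD
  have : Finite ↥D := hD
  by_cases hv : v ∈ D
  · refine Q_vert (G.induce D) ⟨v, hv⟩ (Q_sub2 G hD _ {v}ᶜ _ ?_ h1)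
      (Q_sub2 G hD _ (G.neighborSet v) _ (fun _ h => h) h2)
    intro x hx hxv
    exact hx (Subtype.ext hxv)
  · refine Q_of_map _ _ (fun x : ↥D => ⟨⟨x.1, fun h => hv (by rw [Set.mem_singleton_iff] at h; exact h ▸ x.2)⟩,
      x.2⟩) ?_ ?_ (h1 {x | x.1 ∈ D} (Set.Finite.preimage Subtype.val_injective.injOn hD))
    · intro a b hab
      have := congrArg (fun y => y.1.1) hab
      exact Subtype.ext this
    · intro a b
      exact Iff.rfl

theorem QI_loc {m : ℕ} {V : Type} (G : SimpleGraph V) (B : Set V)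
    (hB : ∀ T : Finset V, G.IsClique (T : Set V) → (T : Set V) ⊆ B → T.card ≤ m + 1)
    (h : ∀ v, v ∉ B → QI (2 * m + 1) (G.induce (G.neighborSet v))) : QI (2 * m + 2) G := by
  intro A hA
  have : Finite ↥A := hA
  refine Q_loc (G.induce A) {x | x.1 ∈ B} ?_ fun v hv => ?_
  · intro T hT hTB
    have h3 := hB (T.map ⟨Subtype.val, Subtype.val_injective⟩) (by
      intro a ha b hb hab
      rw [Finset.mem_coe, Finset.mem_map] at ha hb
      obtain ⟨x, hx, rfl⟩ := ha
      obtain ⟨y, hy, rfl⟩ := hb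
      exact hT hx hy fun e => hab (by rw [e])) (by
      intro a ha
      rw [Finset.mem_coe, Finset.mem_map] at ha
      obtain ⟨x, hx, rfl⟩ := ha
      exact hTB hx)
    rwa [Finset.card_map] at h3
  · exact Q_sub2 G hA _ (G.neighborSet v.1) _ (fun _ h => h) (h v.1 hv)

theorem QI_del {n : ℕ} {V : Type} (G : SimpleGraph V) (s t : V) (hst : G.Adj s t) (h1 : QI (n + 2) G)
    (h2 : QI n (G.induce (G.neighborSet s ∩ G.neighborSet t))) : QI (n + 2) (G.deleteEdges {s(s, t)}) := by
  intro D hD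
  have : Finite ↥D := hD
  by_cases hm : s ∈ D ∧ t ∈ D
  · obtain ⟨hs, ht⟩ := hm
    have h3 := Q_del (G.induce D) ⟨s, hs⟩ ⟨t, ht⟩ hst (h1 D hD)
      (Q_sub2 G hD _ (G.neighborSet s ∩ G.neighborSet t) _ (fun _ h => h) h2)
    refine Q_of_map _ _ id Function.injective_id ?_ h3
    intro a b
    show ((G.induce D).deleteEdges {s(⟨s, hs⟩, ⟨t, ht⟩)}).Adj a b ↔ (G.deleteEdges {s(s, t)}).Adj a.1 b.1
    rw [SimpleGraph.deleteEdges_adj, SimpleGraph.deleteEdges_adj]
    simp only [SimpleGraph.comap_adj, Function.Embedding.subtype_apply, Set.mem_singleton_iff,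
      Sym2.eq_iff, Subtype.ext_iff]
  · have e : (G.deleteEdges {s(s, t)}).induce D = G.induce D := by
      ext a b
      simp only [SimpleGraph.comap_adj, Function.Embedding.subtype_apply, SimpleGraph.deleteEdges_adj,
        Set.mem_singleton_iff, Sym2.eq_iff]
      refine ⟨fun h => h.1, fun h => ⟨h, ?_⟩⟩
      rintro (⟨h3, h4⟩ | ⟨h3, h4⟩)
      · exact hm ⟨h3 ▸ a.2, h4 ▸ b.2⟩
      · exact hm ⟨h4 ▸ b.2, h3 ▸ a.2⟩
    rw [e]
    exact h1 D hD

theorem QI_of_AQI {n : ℕ} {V : Type} {G : SimpleGraph V} (h : AQI n G) : QI n G := by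
  induction h with
  | aq G h => exact QI_of_Q (Q_of_AQ h)
  | ami G h => exact fun A hA => Q_of_P _ (PI_of_AMI h A hA)
  | locfin G _ ih =>
    intro A hA
    have : Finite ↥A := hA
    exact Q_of_QI (ih A hA)
  | full G A _ ih => exact QI_emb G (G.induce A) Subtype.val Subtype.val_injective (fun _ _ => Iff.rfl) ih
  | join G H _ _ ih1 ih2 => exact QI_join G H ih1 ih2
  | succ G _ ih => exact fun A hA => ⟨(ih A hA).1, fun B i hi => (ih A hA).2 B i (by omega)⟩
  | pred G _ ih => exact fun A hA => ⟨(ih A hA).1, fun B i hi => (ih A hA).2 B i (by omega)⟩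
  | del G s t hst _ _ ih1 ih2 => exact QI_del G s t hst ih1 ih2
  | loc G B hB _ ih => exact QI_loc G B hB ih
  | vert G v _ _ ih1 ih2 => exact QI_vert G v ih1 ih2
  | glue G A B hAB hno _ _ _ ih1 ih2 ih3 => exact QI_glue G A B hAB hno ih1 ih2 ih3
  | iso G H e _ ih =>
    obtain ⟨e⟩ := e
    exact QI_emb G H e.symm e.symm.injective (fun _ _ => e.symm.map_adj_iff) ih

/-- vanishing above the middle for the finite full subcomplexes -/
theorem above_AQI {n : ℕ} {V : Type} {G : SimpleGraph V} (h : AQI n G) (A : Set V) (hA : A.Finite)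
    [Fintype ↥A] [LinearOrder ↥A] (i : ℕ) (hi : n < 2 * i) : L2Van (G.induce A) i := by
  have h1 := (QI_of_AQI h A hA).2 Set.univ i hi
  exact (lv_univ _ i).1 h1 _ _

end Pool.Agent.Q68.DO
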